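import Mathlib
import Pool.Agent.H621R3.LFDefs
import Pool.Agent.H621R3.LFNet
import Pool.Agent.H621R3.LFExist

set_option autoImplicit false

/-!
Problem MP_1d1573_an, Q1, full positive answer: for every net `N` in a real normed space,
`Lip₀(N)` is linearly isomorphic to its countable `ℓ_∞`-sum. The proof dualises the isomorphism
of the Lipschitz free space `F(N)` with `ℓ_1(F(N))` (`Pool.Agent.H621R3.LF.net_iso`).
-/

namespace Pool.Agent.Results.MP_1d1573_an.NetSum

open Pool.Agent.H621R3.LF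
open scoped ENNReal

universe u

/-- The real valued Lipschitz functions on `M` which vanish at the base point, as a linear
space. -/
def LipSub (M : Type*) [MetricSpace M] (x0 : M) : Submodule ℝ (M → ℝ) where
  carrier := {f | f x0 = 0 ∧ ∃ C : ℝ, ∀ x y, |f x - f y| ≤ C * dist x y}
  add_mem' := by
    rintro f g ⟨hf, C, hC⟩ ⟨hg, D, hD⟩
    refine ⟨by simp [hf, hg], C + D, fun x y => ?_⟩
    have h : (f + g) x - (f + g) y = (f x - f y) + (g x - g y) := by
      simp only [Pi.add_apply]; ring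
    rw [h, add_mul]
    exact (abs_add_le _ _).trans (add_le_add (hC x y) (hD x y))
  zero_mem' := ⟨rfl, 0, fun x y => by simp⟩
  smul_mem' := by
    rintro c f ⟨hf, C, hC⟩
    refine ⟨by simp [hf], |c| * C, fun x y => ?_⟩
    have h : (c • f) x - (c • f) y = c * (f x - f y) := by
      simp only [Pi.smul_apply, smul_eq_mul]; ring
    rw [h, abs_mul, mul_assoc]
    exact mul_le_mul_of_nonneg_left (hC x y) (abs_nonneg c)

/-- The space `Lip₀(M)`: the real valued Lipschitz functions on `M` which vanish at the base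
point. It carries the Lipschitz norm (defined below). -/
def Lip0 (M : Type*) [MetricSpace M] (x0 : M) : Type _ := LipSub M x0

variable {M : Type*} [MetricSpace M] {x0 : M}

noncomputable instance : AddCommGroup (Lip0 M x0) := inferInstanceAs (AddCommGroup (LipSub M x0))

noncomputable instance : Module ℝ (Lip0 M x0) := inferInstanceAs (Module ℝ (LipSub M x0))

instance : CoeFun (Lip0 M x0) fun _ => M → ℝ := ⟨fun f => f.1⟩

lemma add_apply (f g : Lip0 M x0) (x : M) : (f + g) x = f x + g x := rfl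
lemma neg_apply (f : Lip0 M x0) (x : M) : (-f) x = -f x := rfl
lemma smul_apply (c : ℝ) (f : Lip0 M x0) (x : M) : (c • f) x = c * f x := rfl
lemma zero_apply (x : M) : (0 : Lip0 M x0) x = 0 := rfl
lemma ext' {f g : Lip0 M x0} (h : ∀ x, f x = g x) : f = g := Subtype.ext (funext h)

/-- The Lipschitz norm: the supremum of the difference quotients (the quotients with `x = y` are
zero by convention, so that they do not matter). -/
noncomputable instance : Norm (Lip0 M x0) :=
  ⟨fun f => ⨆ p : M × M, |f p.1 - f p.2| / dist p.1 p.2⟩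

lemma norm_def (f : Lip0 M x0) : ‖f‖ = ⨆ p : M × M, |f p.1 - f p.2| / dist p.1 p.2 := rfl

lemma quot_le {f : Lip0 M x0} {C : ℝ} (hC : 0 ≤ C) (h : ∀ x y, |f x - f y| ≤ C * dist x y)
    (p : M × M) : |f p.1 - f p.2| / dist p.1 p.2 ≤ C :=
  div_le_of_le_mul₀ dist_nonneg hC (h p.1 p.2)

lemma norm_le {f : Lip0 M x0} {C : ℝ} (hC : 0 ≤ C) (h : ∀ x y, |f x - f y| ≤ C * dist x y) :
    ‖f‖ ≤ C := by
  have : Nonempty (M × M) := ⟨(x0, x0)⟩
  exact ciSup_le (quot_le hC h)

lemma bdd (f : Lip0 M x0) :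
    BddAbove (Set.range fun p : M × M => |f p.1 - f p.2| / dist p.1 p.2) := by
  obtain ⟨C, hC⟩ := f.2.2
  refine ⟨max C 0, ?_⟩
  rintro _ ⟨p, rfl⟩
  refine quot_le (le_max_right _ _) (fun x y => (hC x y).trans ?_) p
  exact mul_le_mul_of_nonneg_right (le_max_left _ _) dist_nonneg

lemma abs_sub_le (f : Lip0 M x0) (x y : M) : |f x - f y| ≤ ‖f‖ * dist x y := by
  rcases eq_or_ne x y with rfl | hxy
  · simp
  have h := le_ciSup (bdd f) (x, y)
  rw [← norm_def] at h
  exact (div_le_iff₀ (dist_pos.2 hxy)).1 h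

lemma norm_nonneg' (f : Lip0 M x0) : 0 ≤ ‖f‖ :=
  Real.iSup_nonneg fun _ => div_nonneg (abs_nonneg _) dist_nonneg

noncomputable instance : NormedAddCommGroup (Lip0 M x0) :=
  AddGroupNorm.toNormedAddCommGroup
    { toFun := fun f => ‖f‖
      map_zero' := le_antisymm (norm_le le_rfl fun x y => by simp [zero_apply]) (norm_nonneg' _)
      add_le' := fun f g => by
        refine norm_le (add_nonneg (norm_nonneg' _) (norm_nonneg' _)) fun x y => ?_
        have h : (f + g) x - (f + g) y = (f x - f y) + (g x - g y) := by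
          simp only [add_apply]; ring
        rw [h, add_mul]
        exact (abs_add_le _ _).trans (add_le_add (abs_sub_le f x y) (abs_sub_le g x y))
      neg' := fun f => by
        have h : ∀ f : Lip0 M x0, ‖-f‖ ≤ ‖f‖ := fun f => by
          refine norm_le (norm_nonneg' _) fun x y => ?_
          have h : (-f) x - (-f) y = -(f x - f y) := by
            simp only [neg_apply]; ring
          rw [h, abs_neg]
          exact abs_sub_le f x y
        refine le_antisymm (h f) ?_
        have := h (-f)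
        rwa [neg_neg] at this
      eq_zero_of_map_eq_zero' := fun f hf => by
        apply ext'
        intro x
        have h := abs_sub_le f x x0
        have h0 : ‖f‖ = 0 := hf
        rw [h0, zero_mul, f.2.1, sub_zero] at h
        simpa [zero_apply] using h }

noncomputable instance : NormedSpace ℝ (Lip0 M x0) where
  norm_smul_le c f := by
    refine norm_le (mul_nonneg (norm_nonneg c) (norm_nonneg' f)) fun x y => ?_
    have h : (c • f) x - (c • f) y = c * (f x - f y) := by
      simp only [smul_apply]; ring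
    rw [h, abs_mul, mul_assoc]
    exact mul_le_mul_of_nonneg_left (abs_sub_le f x y) (abs_nonneg c)

/-- A net in `X`. -/
def IsNet' {X : Type*} [NormedAddCommGroup X] (N : Set X) : Prop :=
  ∃ ε > 0, ∃ δ > 0, (∀ x ∈ N, ∀ y ∈ N, x ≠ y → ε ≤ dist x y) ∧ ∀ x, ∃ y ∈ N, dist x y < δ

lemma IsNet'.isNet {X : Type*} [NormedAddCommGroup X] {N : Set X} (h : IsNet' N) : IsNet N := by
  obtain ⟨ε, hε, δ, hδ, h1, h2⟩ := h
  refine ⟨ε, max ε δ, hε, le_max_left _ _, fun x hx y hy hxy => ?_, fun v => ?_⟩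
  · rw [← dist_eq_norm]
    exact h1 x hx y hy hxy
  · obtain ⟨y, hy, h⟩ := h2 v
    refine ⟨y, hy, ?_⟩
    rw [← dist_eq_norm]
    exact h.le.trans (le_max_right _ _)

/-! ### Functionals on the free space -/

instance : PBanach 1 ℝ where
  complete := inferInstance
  norm_smul c y := by rw [norm_smul, Real.rpow_one, Real.norm_eq_abs]

instance : PBanach 1 (ULift.{u} ℝ) where
  complete := inferInstance
  norm_smul c y := by rw [norm_smul, Real.rpow_one, Real.norm_eq_abs]

section

variable {M : Type u} [MetricSpace M] {x0 : M} {F : Type u} [NormedAddCommGroup F] [Module ℝ F]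
  {δ : M → F}

lemma exists_functional (h : IsLipFree 1 x0 δ) (f : Lip0 M x0) :
    ∃ T : F →L[ℝ] ℝ, (∀ x, T (δ x) = f x) ∧ ∀ v, ‖T v‖ ≤ ‖f‖ * ‖v‖ := by
  obtain ⟨T, hT, hb⟩ := h.lift (ULift.{u} ℝ) inferInstance (fun x => ULift.up (f x)) ‖f‖
    (norm_nonneg _) (by rw [f.2.1]; rfl) (fun x y => by
      rw [Real.rpow_one]
      exact abs_sub_le f x y)
  refine ⟨(ContinuousLinearEquiv.ulift : ULift.{u} ℝ ≃L[ℝ] ℝ).toContinuousLinearMap.comp T, ?_, ?_⟩
  · intro x
    show (T (δ x)).down = f x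
    rw [hT]
  · intro v
    have := hb v
    rw [Real.rpow_one] at this
    exact this

lemma functional_unique (h : IsLipFree 1 x0 δ) {T T' : F →L[ℝ] ℝ}
    (hT : ∀ x, T (δ x) = T' (δ x)) : T = T' := by
  have := h.unique (ULift.{u} ℝ) inferInstance
    ((ContinuousLinearEquiv.ulift : ULift.{u} ℝ ≃L[ℝ] ℝ).symm.toContinuousLinearMap.comp T)
    ((ContinuousLinearEquiv.ulift : ULift.{u} ℝ ≃L[ℝ] ℝ).symm.toContinuousLinearMap.comp T')
    (fun x => by
      show ULift.up (T (δ x)) = ULift.up (T' (δ x))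
      rw [hT])
  ext v
  have h2 := congrArg (fun S : F →L[ℝ] ULift.{u} ℝ => (S v).down) this
  exact h2

/-- The functional on the free space given by a Lipschitz function. -/
noncomputable def fn (h : IsLipFree 1 x0 δ) (f : Lip0 M x0) : F →L[ℝ] ℝ :=
  (exists_functional h f).choose

lemma fn_apply (h : IsLipFree 1 x0 δ) (f : Lip0 M x0) (x : M) : fn h f (δ x) = f x :=
  (exists_functional h f).choose_spec.1 x

lemma fn_le (h : IsLipFree 1 x0 δ) (f : Lip0 M x0) (v : F) : ‖fn h f v‖ ≤ ‖f‖ * ‖v‖ :=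
  (exists_functional h f).choose_spec.2 v

lemma fn_add (h : IsLipFree 1 x0 δ) (f g : Lip0 M x0) : fn h (f + g) = fn h f + fn h g :=
  functional_unique h fun x => by
    rw [fn_apply, _root_.add_apply, fn_apply, fn_apply, add_apply]

lemma fn_smul (h : IsLipFree 1 x0 δ) (c : ℝ) (f : Lip0 M x0) : fn h (c • f) = c • fn h f :=
  functional_unique h fun x => by
    rw [fn_apply, _root_.smul_apply, fn_apply, smul_apply, smul_eq_mul]

/-- The Lipschitz function given by a bounded functional. -/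
noncomputable def ofFn (h : IsLipFree 1 x0 δ) (T : F →L[ℝ] ℝ) (C : ℝ)
    (hT : ∀ v, ‖T v‖ ≤ C * ‖v‖) : Lip0 M x0 :=
  ⟨fun x => T (δ x), by show T (δ x0) = 0; rw [h.map_base, map_zero], C, fun x y => by
    rw [← map_sub]
    refine (hT _).trans ?_
    rw [h.isometric, Real.rpow_one]⟩

lemma ofFn_apply (h : IsLipFree 1 x0 δ) (T : F →L[ℝ] ℝ) (C : ℝ)
    (hT : ∀ v, ‖T v‖ ≤ C * ‖v‖) (x : M) : ofFn h T C hT x = T (δ x) := rfl

lemma norm_ofFn_le (h : IsLipFree 1 x0 δ) (T : F →L[ℝ] ℝ) {C : ℝ} (hC : 0 ≤ C)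
    (hT : ∀ v, ‖T v‖ ≤ C * ‖v‖) : ‖ofFn h T C hT‖ ≤ C :=
  norm_le hC fun x y => by
    rw [ofFn_apply, ofFn_apply, ← map_sub]
    refine (hT _).trans ?_
    rw [h.isometric, Real.rpow_one]

end

section main

variable {M : Type u} [MetricSpace M] {x0 : M} {F : Type u} [NormedAddCommGroup F] [Module ℝ F]
  {δ : M → F}

lemma comp_bound [PBanach 1 F] (h : IsLipFree 1 x0 δ) (e : F ≃L[ℝ] EllP 1 F) {B : ℝ}
    (hB : ∀ z, ‖e.symm z‖ ≤ B * ‖z‖) (f : Lip0 M x0) (n : ℕ) (v : F) :
    ‖((fn h f).comp (e.symm.toContinuousLinearMap.comp (inj n))) v‖ ≤ (‖f‖ * B) * ‖v‖ := by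
  refine (fn_le h f _).trans ?_
  rw [mul_assoc]
  refine mul_le_mul_of_nonneg_left ?_ (norm_nonneg f)
  have := hB (inj n v)
  rwa [norm_inj] at this

lemma sum_bound [PBanach 1 F] (h : IsLipFree 1 x0 δ) (g : lp (fun _ : ℕ => Lip0 M x0) ∞)
    (n : ℕ) (v : F) : ‖fn h (g n) v‖ ≤ ‖g‖ * ‖v‖ :=
  (fn_le h (g n) v).trans (mul_le_mul_of_nonneg_right
    (lp.norm_apply_le_norm (by simp) g n) (norm_nonneg v))

lemma sum_bound' [PBanach 1 F] (h : IsLipFree 1 x0 δ) (e : F ≃L[ℝ] EllP 1 F) {A : ℝ}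
    (hA : ∀ v, ‖e v‖ ≤ A * ‖v‖) (g : lp (fun _ : ℕ => Lip0 M x0) ∞) (v : F) :
    ‖((sumMap (fun n => fn h (g n)) ‖g‖ (sum_bound h g)).comp e.toContinuousLinearMap) v‖ ≤
      (‖g‖ * A) * ‖v‖ := by
  have h1 : ∀ z : EllP 1 F, ‖sumMap (fun n => fn h (g n)) ‖g‖ (sum_bound h g) z‖ ≤ ‖g‖ * ‖z‖ := by
    intro z
    rw [sumMap_apply]
    have hs : Summable fun n => ‖fn h (g n) (z n)‖ :=
      (z.summable.mul_left ‖g‖).of_nonneg_of_le (fun _ => norm_nonneg _) fun n => sum_bound h g n (z n)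
    refine (norm_tsum_le_tsum_norm hs).trans ?_
    rw [EllP.norm_eq, ← tsum_mul_left]
    exact hs.tsum_le_tsum (fun n => sum_bound h g n (z n)) (z.summable.mul_left _)
  refine (h1 _).trans ?_
  rw [mul_assoc]
  exact mul_le_mul_of_nonneg_left (hA v) (norm_nonneg g)

theorem main_equiv [PBanach 1 F] (h : IsLipFree 1 x0 δ) (e : F ≃L[ℝ] EllP 1 F) :
    Nonempty (Lip0 M x0 ≃L[ℝ] lp (fun _ : ℕ => Lip0 M x0) ∞) := by
  obtain ⟨A, hA0, hA⟩ := exists_bound one_pos e.toContinuousLinearMap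
  obtain ⟨B, hB0, hB⟩ := exists_bound one_pos e.symm.toContinuousLinearMap
  have hmem : ∀ f : Lip0 M x0, Memℓp (fun n => ofFn h
      ((fn h f).comp (e.symm.toContinuousLinearMap.comp (inj n))) (‖f‖ * B)
      (comp_bound h e hB f n)) ∞ := by
    intro f
    rw [memℓp_infty_iff]
    refine ⟨‖f‖ * B, ?_⟩
    rintro _ ⟨n, rfl⟩
    exact norm_ofFn_le h _ (by positivity) _
  let Θ : Lip0 M x0 → lp (fun _ : ℕ => Lip0 M x0) ∞ := fun f => ⟨_, hmem f⟩
  let Ξ : lp (fun _ : ℕ => Lip0 M x0) ∞ → Lip0 M x0 := fun g =>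
    ofFn h ((sumMap (fun n => fn h (g n)) ‖g‖ (sum_bound h g)).comp e.toContinuousLinearMap)
      (‖g‖ * A) (sum_bound' h e hA g)
  have hΘ : ∀ f n x, (Θ f n) x = fn h f (e.symm (inj n (δ x))) := fun f n x => rfl
  have hΞ : ∀ g x, (Ξ g) x = sumMap (fun n => fn h (g n)) ‖g‖ (sum_bound h g) (e (δ x)) :=
    fun g x => rfl
  have hfn : ∀ f n, fn h (Θ f n) = (fn h f).comp (e.symm.toContinuousLinearMap.comp (inj n)) := by
    intro f n
    refine functional_unique h fun x => ?_
    rw [fn_apply, hΘ]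
    rfl
  have hfn' : ∀ g, fn h (Ξ g) = (sumMap (fun n => fn h (g n)) ‖g‖ (sum_bound h g)).comp
      e.toContinuousLinearMap := by
    intro g
    refine functional_unique h fun x => ?_
    rw [fn_apply, hΞ]
    rfl
  let L : Lip0 M x0 ≃ₗ[ℝ] lp (fun _ : ℕ => Lip0 M x0) ∞ :=
    { toFun := Θ
      invFun := Ξ
      map_add' := fun f g => by
        refine lp.ext (funext fun n => ext' fun x => ?_)
        rw [lp.coeFn_add, Pi.add_apply, add_apply, hΘ, hΘ, hΘ, fn_add]
        rfl
      map_smul' := fun c f => by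
        refine lp.ext (funext fun n => ext' fun x => ?_)
        rw [lp.coeFn_smul, Pi.smul_apply, RingHom.id_apply, smul_apply, hΘ, hΘ, fn_smul]
        rfl
      left_inv := fun f => by
        refine ext' fun x => ?_
        rw [hΞ]
        have : sumMap (fun n => fn h (Θ f n)) ‖Θ f‖ (sum_bound h (Θ f)) =
            (fn h f).comp e.symm.toContinuousLinearMap := by
          refine ext_inj (p := 1) fun i y => ?_
          rw [sumMap_inj, hfn]
          rfl
        rw [this]
        show fn h f (e.symm (e (δ x))) = f x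
        rw [e.symm_apply_apply, fn_apply]
      right_inv := fun g => by
        refine lp.ext (funext fun n => ext' fun x => ?_)
        rw [hΘ, hfn']
        show sumMap (fun n => fn h (g n)) ‖g‖ (sum_bound h g) (e (e.symm (inj n (δ x)))) = _
        rw [e.apply_symm_apply, sumMap_inj, fn_apply] }
  refine ⟨L.toContinuousLinearEquivOfBounds B A (fun f => ?_) (fun g => ?_)⟩
  · refine lp.norm_le_of_forall_le (by positivity) fun n => ?_
    refine (norm_ofFn_le h _ (C := ‖f‖ * B) (by positivity) (comp_bound h e hB f n)).trans ?_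
    rw [mul_comm]
  · refine (norm_ofFn_le h _ (C := ‖g‖ * A) (by positivity) (sum_bound' h e hA g)).trans ?_
    rw [mul_comm]

end main

/-- For every net `N` in a real normed space `X`, the Banach space `Lip₀(N)` is linearly isomorphic
to the `ℓ_∞`-sum of countably many copies of itself. -/
theorem result (X : Type u) [NormedAddCommGroup X] [NormedSpace ℝ X] (N : Set X) (hN : IsNet' N)
    (x0 : N) : Nonempty (Lip0 N x0 ≃L[ℝ] lp (fun _ : ℕ => Lip0 N x0) ∞) := by
  obtain ⟨F, iF, iM, iP, δ, h⟩ := exists_lipFree one_pos le_rfl x0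
  obtain ⟨e⟩ := net_iso hN.isNet x0 one_pos δ h
  exact main_equiv h e

end Pool.Agent.Results.MP_1d1573_an.NetSum
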